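import Pool.Agent.Lib.MP_13d336_gt.Main

set_option autoImplicit false
set_option linter.unusedSectionVars false

namespace Pool.Agent.Results.MP_13d336_gt.ParallelMin

open MeasureTheory Filter Topology
open scoped Manifold ContDiff RealInnerProductSpace

/-- The unit sphere of `E`. -/
abbrev Sph (E : Type) [NormedAddCommGroup E] : Type := Metric.sphere (0 : E) 1

variable {E : Type} [NormedAddCommGroup E] [InnerProductSpace ℝ E]

open Classical in
/-- Extension of a field on the sphere which is constant along rays. -/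
noncomputable def radExt (V : Sph E → E) (x : E) : E :=
  if h : ‖x‖⁻¹ • x ∈ Metric.sphere (0 : E) 1 then V ⟨‖x‖⁻¹ • x, h⟩ else 0

/-- Orthogonal projection onto the tangent space at `x`. -/
noncomputable def tproj (x : Sph E) (z : E) : E := z - ⟪(x : E), z⟫ • (x : E)

/-- Levi-Civita covariant derivative at `x` (extended by zero on the normal line). -/
noncomputable def covD (V : Sph E → E) (x : Sph E) (z : E) : E :=
  tproj x (fderiv ℝ (radExt V) x (tproj x z))

/-- Unit tangent vectors at `a`. -/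
def IsDir (a : Sph E) (b : E) : Prop := ‖b‖ = 1 ∧ ⟪b, (a : E)⟫ = 0

/-- The parallel transport field `P^{a,b}`. -/
noncomputable def par (a : Sph E) (b : E) (x : Sph E) : E :=
  b - (⟪(x : E), b⟫ / (1 + ⟪(x : E), (a : E)⟫)) • ((a : E) + x)

/-- Smooth unit tangent fields on the sphere minus `-a`. -/
def IsUnitField (n : ℕ) [Fact (Module.finrank ℝ E = n + 1)] (a : Sph E) (V : Sph E → E) : Prop :=
  ContMDiffOn (𝓡 n) 𝓘(ℝ, E) ∞ V {x | x ≠ -a} ∧ ∀ x : Sph E, x ≠ -a → IsDir x (V x)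

variable [FiniteDimensional ℝ E]

/-- `√det(Id + A^t ∘ A)`, computed in an orthonormal basis. -/
noncomputable def density (A : E → E) : ℝ :=
  √(Matrix.det (1 + Matrix.of fun i j =>
    ⟪A (stdOrthonormalBasis ℝ E i), A (stdOrthonormalBasis ℝ E j)⟫))

variable [MeasurableSpace E] [BorelSpace E]

/-- The volume of a vector field. -/
noncomputable def vol (V : Sph E → E) : ENNReal :=
  ∫⁻ x, ENNReal.ofReal (density (covD V x)) ∂(volume : Measure E).toSphere

open Pool.Agent.Lib.MP_13d336_gt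

theorem radExt_coe (V : Sph E → E) (x : Sph E) : radExt V x = V x := by
  have h : ‖(x : E)‖⁻¹ • (x : E) = x := by simp
  rw [radExt, dif_pos (by rw [h]; exact x.2)]
  congr 1
  exact Subtype.ext h

theorem par_eq (a : Sph E) (b : E) (x : Sph E) : par a b x = PW (-(a : E)) b x := by
  rw [par, PW, inner_neg_left, sub_neg_eq_add, sub_neg_eq_add, real_inner_comm b,
    real_inner_comm (a : E), add_comm (a : E)]

theorem vol_eq [CompleteSpace E] (V : Sph E → E) : vol V = volE (radExt V) := by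
  refine lintegral_congr fun x => ?_
  rw [gd, det_gd (stdOrthonormalBasis ℝ E), gram_mat, density]
  congr 5
  funext i j
  rw [mat, ContinuousLinearMap.comp_apply, ContinuousLinearMap.adjoint_inner_right]
  rfl

theorem adm [CompleteSpace E] {n : ℕ} [Fact (Module.finrank ℝ E = n + 1)] {a : Sph E}
    {V : Sph E → E} (h : IsUnitField n a V) : Adm (-(a : E)) (radExt V) := by
  classical
  have hp : ‖-(a : E)‖ = 1 := by simp
  refine ⟨⟨Om1 (-(a : E)), isOpen_Om1 _, fun y hy => ?_, fun x hx => ?_⟩, fun y hy => ?_⟩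
  · have h2 : ‖y‖ = 1 := by simpa using hy.1
    rw [Om1, Set.mem_ofPred_eq, h2]; exact inner_lt_one hp hy
  · have hx0 := norm_pos_iff.1 (Om1.norm_pos hp hx)
    let g : E → Sph E := fun y =>
      if h : ‖y‖⁻¹ • y ∈ Metric.sphere (0 : E) 1 then ⟨‖y‖⁻¹ • y, h⟩ else a
    let U : TopologicalSpace.Opens E := ⟨{y | y ≠ 0}, isOpen_ne⟩
    have hm : ∀ y : U, nz (y : E) ∈ Metric.sphere (0 : E) 1 := fun y => by
      simpa using norm_nz y.2
    have h1 : ContMDiff 𝓘(ℝ, E) 𝓘(ℝ, E) ∞ fun y : U => nz (y : E) := fun y =>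
      contMDiffAt_subtype_iff.2 (contDiffAt_nz y.2).contMDiffAt
    have h2 : ContMDiff 𝓘(ℝ, E) (𝓡 n) ∞ fun y : U => g y :=
      (h1.codRestrict_sphere hm).congr fun y => dif_pos (hm y)
    have h3 : ContMDiffAt 𝓘(ℝ, E) (𝓡 n) ∞ g x :=
      (contMDiffAt_subtype_iff (U := U) (x := ⟨x, hx0⟩)).1 (h2 _)
    have h4 : g x ≠ -a := by
      intro h4
      have h5 : g x = ⟨nz x, hm ⟨x, hx0⟩⟩ := dif_pos (hm ⟨x, hx0⟩)
      exact (Om1.nz_mem hp hx).2 (congrArg Subtype.val (h5.symm.trans h4))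
    have h5 := (h.1.contMDiffAt (isOpen_ne.mem_nhds h4)).comp x h3
    refine (h5.contDiffAt.congr_of_eventuallyEq ?_).contDiffWithinAt
    filter_upwards [isOpen_ne.mem_nhds hx0] with y hy
    have h6 : ‖y‖⁻¹ • y ∈ Metric.sphere (0 : E) 1 := hm ⟨y, hy⟩
    simp only [radExt, Function.comp_apply, g, dif_pos h6]
  · have := h.2 ⟨y, hy.1⟩ fun h1 => hy.2 (congrArg Subtype.val h1)
    rwa [← radExt_coe V] at this

theorem unit_par [CompleteSpace E] (n : ℕ) [Fact (Module.finrank ℝ E = n + 1)] (a : Sph E) {b : E}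
    (hb : ‖b‖ = 1) (hab : ⟪b, (a : E)⟫ = 0) : IsUnitField n a (par a b) := by
  have hp : ‖-(a : E)‖ = 1 := by simp
  obtain ⟨⟨U, h1, h2, h3⟩, h4⟩ := adm_PW hp hb (by rw [inner_neg_right, hab, neg_zero])
  have hm : ∀ x : Sph E, x ≠ -a → (x : E) ∈ Metric.sphere (0 : E) 1 \ {-(a : E)} :=
    fun x hx => ⟨x.2, fun h => hx (Subtype.ext h)⟩
  refine ⟨fun x hx => ?_, fun x hx => by rw [par_eq]; exact h4 _ (hm x hx)⟩
  have h5 := (h3.contDiffAt (h1.mem_nhds (h2 (hm x hx)))).contMDiffAt.comp x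
    (contMDiff_coe_sphere (n := n) x)
  rw [funext (par_eq a b)]
  exact h5.contMDiffWithinAt

/-- Parallel transport fields are exactly the unit fields of least volume on `S^{2m} ∖ {-a}`. -/
theorem result (m : ℕ) (hm : 2 ≤ m) [Fact (Module.finrank ℝ E = 2 * m + 1)] (a : Sph E) (b : E)
    (hab : IsDir a b) :
    IsUnitField (2 * m) a (par a b) ∧ vol (par a b) < ⊤ ∧
    ∀ V : Sph E → E, IsUnitField (2 * m) a V →
      vol (par a b) ≤ vol V ∧ (vol V = vol (par a b) ↔
        ∃ b' : E, IsDir a b' ∧ ∀ x : Sph E, x ≠ -a → V x = par a b' x) := by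
  obtain ⟨hb, hab⟩ := hab
  simp only [IsDir, and_assoc]
  have := FiniteDimensional.complete ℝ E
  obtain ⟨J, hJ⟩ : ∃ J, m = J + 2 := ⟨m - 2, by omega⟩
  have hE : Module.finrank ℝ E = 2 * (J + 1) + 3 := by
    rw [(Fact.out : Module.finrank ℝ E = 2 * m + 1), hJ]; ring
  have hp : ‖-(a : E)‖ = 1 := by simp
  have key : ∀ V : Sph E → E, IsUnitField (2 * m) a V →
      ((∀ W, Adm (-(a : E)) W → volE (radExt V) ≤ volE W) ↔
        ∃ b' : E, ‖b'‖ = 1 ∧ ⟪b', (a : E)⟫ = 0 ∧ ∀ x : Sph E, x ≠ -a → V x = par a b' x) := by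
    intro V hV
    rw [main J hE hp (adm hV)]
    refine exists_congr fun v => and_congr_right fun _ => and_congr (by simp) ⟨fun h x hx => ?_,
      fun h x hx => ?_⟩
    · rw [par_eq, ← h x ⟨x.2, fun h => hx (Subtype.ext h)⟩, radExt_coe]
    · have := h ⟨x, hx.1⟩ fun h1 => hx.2 (congrArg Subtype.val h1)
      rwa [par_eq, ← radExt_coe V] at this
  have h0 := unit_par (2 * m) a hb hab
  have h1 := (key _ h0).2 ⟨b, hb, hab, fun _ _ => rfl⟩
  simp only [vol_eq]
  refine ⟨h0, ?_, fun V hV => ⟨h1 _ (adm hV), ?_⟩⟩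
  · have hpb : ⟪b, -(a : E)⟫ = 0 := by rw [inner_neg_right, hab, neg_zero]
    have hP := adm_PW hp hb hpb
    have h2 := hP.model J hE hp hb (by rw [real_inner_comm, hpb])
      fun x hx => fW_eq_of_PW hp hpb (fun _ _ => rfl) hx
    refine (h1 _ hP).trans_lt (lt_top_iff_ne_top.2 fun h3 => ?_)
    rw [h3, ENNReal.top_mul (kk_ne J hE hp).1] at h2
    exact ENNReal.ofReal_ne_top h2.symm
  · rw [← key V hV]
    exact ⟨fun h W hW => h ▸ h1 W hW, fun h => le_antisymm (h _ (adm h0)) (h1 _ (adm hV))⟩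

end Pool.Agent.Results.MP_13d336_gt.ParallelMin
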